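import Mathlib

/-!
# Gaussian sums of symmetric tensors in injective `ℓ_p` norms: the case `r = 2`, `2 < p ≤ 4`

Definitions and the statements (Props) of the tasks.
-/

set_option autoImplicit false

namespace Pool.Agent.H999R5.Inj

open MeasureTheory ProbabilityTheory Finset
open scoped Matrix

/-- `⟨T, x^{⊗ r}⟩` -/
noncomputable def form {d r : ℕ} (T : (Fin r → Fin d) → ℝ) (x : Fin d → ℝ) : ℝ :=
  ∑ k : Fin r → Fin d, T k * ∏ j, x (k j)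

/-- symmetric tensors: the entries do not change when the indices are permuted -/
def SymT {d r : ℕ} (T : (Fin r → Fin d) → ℝ) : Prop :=
  ∀ (σ : Equiv.Perm (Fin r)) (k : Fin r → Fin d), T (k ∘ σ) = T k

/-- the symmetric injective `ℓ_p` norm of a tensor -/
noncomputable def injNorm {d r : ℕ} (p : ℝ) (T : (Fin r → Fin d) → ℝ) : ℝ :=
  sSup {y : ℝ | ∃ x : Fin d → ℝ, (∑ i, |x i| ^ p) ^ (1 / p) ≤ 1 ∧ y = |form T x|}

/-- `n` independent standard Gaussian variables -/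
noncomputable def gm (n : ℕ) : Measure (Fin n → ℝ) := Measure.pi fun _ => gaussianReal 0 1

/-- the tensor `∑ g_i T_i` -/
noncomputable def gs {d r n : ℕ} (T : Fin n → (Fin r → Fin d) → ℝ) (g : Fin n → ℝ) :
    (Fin r → Fin d) → ℝ := fun k => ∑ i, g i * T i k

/-- the inequality `(∗)` for the pair `(r, p)` (with integrability of the norm) -/
def Star (r : ℕ) (p : ℝ) : Prop :=
  ∃ C κ : ℝ, 0 ≤ C ∧ 0 ≤ κ ∧ ∀ d n : ℕ, 1 ≤ d → 1 ≤ n →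
    ∀ T : Fin n → (Fin r → Fin d) → ℝ, (∀ i, SymT (T i)) →
      Integrable (fun g => injNorm p (gs T g)) (gm n) ∧
      ∫ g, injNorm p (gs T g) ∂(gm n) ≤
        C * Real.log (Real.exp 1 * d * n) ^ κ * (d : ℝ) ^ (1 / 2 - 1 / p) *
          Real.sqrt (∑ i, injNorm p (T i) ^ 2)

/-- quadratic form -/
noncomputable def qf {d : ℕ} (M : Matrix (Fin d) (Fin d) ℝ) (x : Fin d → ℝ) : ℝ := x ⬝ᵥ (M *ᵥ x)

/-- Gaussian matrix series -/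
noncomputable def GX {d n : ℕ} (A : Fin n → Matrix (Fin d) (Fin d) ℝ) (g : Fin n → ℝ) :
    Matrix (Fin d) (Fin d) ℝ := ∑ i, g i • A i

/-! ## statements of the tasks -/

/-- GAU: Gaussian integration by parts for polynomials -/
def S_GAU : Prop :=
  ∀ (n : ℕ) (P : MvPolynomial (Fin n) ℝ),
    Integrable (fun g => MvPolynomial.eval g P) (gm n) ∧
    ∀ i : Fin n, ∫ g, g i * MvPolynomial.eval g P ∂(gm n) =
      ∫ g, MvPolynomial.eval g (MvPolynomial.pderiv i P) ∂(gm n)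

/-- IBP: integration by parts for the traces of powers (uses GAU) -/
def S_IBP : Prop :=
  ∀ (n d : ℕ) (A : Fin n → Matrix (Fin d) (Fin d) ℝ),
    (∀ (B : Matrix (Fin d) (Fin d) ℝ) (m : ℕ),
      Integrable (fun g => (B * GX A g ^ m).trace) (gm n)) ∧
    (∀ (B : Matrix (Fin d) (Fin d) ℝ) (m : ℕ) (i : Fin n),
      Integrable (fun g => g i * (B * GX A g ^ m).trace) (gm n)) ∧
    (∀ (i : Fin n) (m q : ℕ),
      Integrable (fun g => (A i * GX A g ^ q * A i * GX A g ^ m).trace) (gm n)) ∧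
    ∀ (i : Fin n) (m : ℕ),
      ∫ g, g i * (A i * GX A g ^ (m + 1)).trace ∂(gm n) =
        ∑ q ∈ range (m + 1), ∫ g, (A i * GX A g ^ q * A i * GX A g ^ (m - q)).trace ∂(gm n)

/-- HZ: Heinz type trace inequality -/
def S_HZ : Prop :=
  ∀ (d : ℕ) (A X : Matrix (Fin d) (Fin d) ℝ), A.IsSymm → X.IsSymm → ∀ j q : ℕ, q ≤ 2 * j →
    (A * X ^ q * A * X ^ (2 * j - q)).trace ≤ (A * A * X ^ (2 * j)).trace

/-- TR: monotonicity of the trace -/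
def S_TR : Prop :=
  ∀ (d : ℕ) (S X : Matrix (Fin d) (Fin d) ℝ), (1 - S).PosSemidef → X.IsSymm → ∀ j : ℕ,
    (S * X ^ (2 * j)).trace ≤ (X ^ (2 * j)).trace

/-- NCK: noncommutative Khintchine inequality for traces (uses IBP, HZ, TR) -/
def S_NCK : Prop :=
  ∀ (n d : ℕ) (A : Fin n → Matrix (Fin d) (Fin d) ℝ), (∀ i, (A i).IsSymm) →
    (1 - ∑ i, A i * A i).PosSemidef → ∀ m : ℕ,
      Integrable (fun g => (GX A g ^ (2 * m)).trace) (gm n) ∧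
      ∫ g, (GX A g ^ (2 * m)).trace ∂(gm n) ≤ (2 * m : ℝ) ^ m * d

/-- QT: a quadratic form is bounded by the trace of a high power -/
def S_QT : Prop :=
  ∀ (d : ℕ) (X : Matrix (Fin d) (Fin d) ℝ), X.IsSymm → ∀ m : ℕ, 1 ≤ m →
    0 ≤ (X ^ (2 * m)).trace ∧
    ∀ x : Fin d → ℝ, |qf X x| ≤ ((X ^ (2 * m)).trace) ^ (1 / (2 * m : ℝ)) * (x ⬝ᵥ x)

/-- OP: expected norm of a Gaussian matrix series (uses NCK, QT) -/
def S_OP : Prop :=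
  ∀ (n d : ℕ), 1 ≤ d → ∀ A : Fin n → Matrix (Fin d) (Fin d) ℝ, (∀ i, (A i).IsSymm) →
    (1 - ∑ i, A i * A i).PosSemidef →
    ∃ F : (Fin n → ℝ) → ℝ, (∀ g, 0 ≤ F g) ∧ Integrable F (gm n) ∧
      (∀ g x, |qf (GX A g) x| ≤ F g * (x ⬝ᵥ x)) ∧
      ∫ g, F g ∂(gm n) ≤ 4 * Real.sqrt (Real.log (Real.exp 1 * d))

/-- KH: Khintchine inequality with fourth moments, exponent `2 < p ≤ 4` -/
def S_KH : Prop :=
  ∀ (d : ℕ) (p : ℝ), 2 < p → p ≤ 4 → ∀ b : Fin d → ℝ,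
    (∑ ε : Fin d → Bool, |∑ l, b l * (if ε l then (1 : ℝ) else -1)| ^ p) / 2 ^ d ≤
      (3 : ℝ) ^ (p / 4) * (∑ l, b l ^ 2) ^ (p / 2)

/-- RND: random rounding (uses KH) -/
def S_RND : Prop :=
  ∀ (d : ℕ) (p : ℝ), 2 < p → p ≤ 4 → ∀ (M : Matrix (Fin d) (Fin d) ℝ) (N : ℝ), 0 ≤ N →
    (∀ x : Fin d → ℝ, (∑ i, |x i| ^ p) ≤ 1 → |qf M x| ≤ N) →
    ∀ Y : Matrix (Fin d) (Fin d) ℝ, Y.PosSemidef →
      |(M * Y).trace| ≤ Real.sqrt 3 * N * (∑ k, (Y k k) ^ (p / 2)) ^ (2 / p)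

/-- DUAL: one-sided domination by a diagonal matrix (minimax; uses RND) -/
def S_DUAL : Prop :=
  ∀ (d : ℕ) (p : ℝ), 2 < p → p ≤ 4 → ∀ (M : Matrix (Fin d) (Fin d) ℝ) (N : ℝ), M.IsSymm →
    0 ≤ N → (∀ x : Fin d → ℝ, (∑ i, |x i| ^ p) ≤ 1 → |qf M x| ≤ N) →
    ∃ w : Fin d → ℝ, (∀ k, 0 ≤ w k) ∧
      (∑ k, w k ^ (p / (p - 2))) ^ ((p - 2) / p) ≤ Real.sqrt 3 * N ∧
      ∀ x : Fin d → ℝ, qf M x ≤ ∑ k, w k * x k ^ 2

/-- TWO: two-sided domination (uses DUAL for `M` and `-M`) -/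
def S_TWO : Prop :=
  ∀ (d : ℕ) (p : ℝ), 2 < p → p ≤ 4 → ∀ (M : Matrix (Fin d) (Fin d) ℝ) (N : ℝ), M.IsSymm →
    0 ≤ N → (∀ x : Fin d → ℝ, (∑ i, |x i| ^ p) ≤ 1 → |qf M x| ≤ N) →
    ∃ w : Fin d → ℝ, (∀ k, 0 ≤ w k) ∧ (∀ k, w k ≤ 4 * N) ∧
      (∑ k, w k ^ (p / (p - 2))) ^ ((p - 2) / p) ≤ 4 * N ∧
      ∀ x : Fin d → ℝ, |qf M x| ≤ ∑ k, w k * x k ^ 2

/-- the matrix `D_W^{-1/2} M D_W^{-1/2}` -/
noncomputable def scl {d : ℕ} (W : Fin d → ℝ) (M : Matrix (Fin d) (Fin d) ℝ) :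
    Matrix (Fin d) (Fin d) ℝ := Matrix.of fun k l => M k l / (Real.sqrt (W k) * Real.sqrt (W l))

/-- SQ: the variance proxy of the rescaled matrices is at most `1` -/
def S_SQ : Prop :=
  ∀ (n d : ℕ) (M : Fin n → Matrix (Fin d) (Fin d) ℝ) (w : Fin n → Fin d → ℝ) (α : Fin n → ℝ)
    (t : ℝ), 0 < t → (∀ i, (M i).IsSymm) → (∀ i k, 0 ≤ w i k) → (∀ i k, w i k ≤ α i) →
    (∀ i (x : Fin d → ℝ), |qf (M i) x| ≤ ∑ k, w i k * x k ^ 2) →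
    (∀ i, (scl (fun k => t + (∑ j, α j * w j k) / t) (M i)).IsSymm) ∧
    (1 - ∑ i, scl (fun k => t + (∑ j, α j * w j k) / t) (M i) *
      scl (fun k => t + (∑ j, α j * w j k) / t) (M i)).PosSemidef

/-- FIN: the matrix version of the result (uses OP, TWO, SQ) -/
def S_FIN : Prop :=
  ∀ (p : ℝ), 2 < p → p ≤ 4 → ∀ n d : ℕ, 1 ≤ d → ∀ (M : Fin n → Matrix (Fin d) (Fin d) ℝ)
    (N : Fin n → ℝ), (∀ i, (M i).IsSymm) → (∀ i, 0 ≤ N i) →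
    (∀ i (x : Fin d → ℝ), (∑ k, |x k| ^ p) ≤ 1 → |qf (M i) x| ≤ N i) →
    ∃ F : (Fin n → ℝ) → ℝ, (∀ g, 0 ≤ F g) ∧ Integrable F (gm n) ∧
      (∀ g (x : Fin d → ℝ), (∑ k, |x k| ^ p) ≤ 1 → |qf (GX M g) x| ≤ F g) ∧
      ∫ g, F g ∂(gm n) ≤ 40 * Real.sqrt (Real.log (Real.exp 1 * d)) *
        (d : ℝ) ^ (1 / 2 - 1 / p) * Real.sqrt (∑ i, N i ^ 2)

/-- BDD: the set in the definition of `injNorm` is nonempty and bounded above (`p > 0`) -/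
def S_BDD : Prop :=
  ∀ (d r : ℕ) (p : ℝ), 0 < p → ∀ T : (Fin r → Fin d) → ℝ,
    (∀ x : Fin d → ℝ, (∑ i, |x i| ^ p) ≤ 1 → |form T x| ≤ injNorm p T) ∧
    (∀ B : ℝ, (∀ x : Fin d → ℝ, (∑ i, |x i| ^ p) ≤ 1 → |form T x| ≤ B) → injNorm p T ≤ B) ∧
    0 ≤ injNorm p T

/-- CTS: `g ↦ injNorm p (∑ g_i T_i)` is continuous (uses BDD) -/
def S_CTS : Prop :=
  ∀ (d r n : ℕ) (p : ℝ), 0 < p → ∀ T : Fin n → (Fin r → Fin d) → ℝ,
    Continuous (fun g : Fin n → ℝ => injNorm p (gs T g))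

/-- BR: tensors of order two are matrices -/
def S_BR : Prop :=
  ∀ (d : ℕ) (T : (Fin 2 → Fin d) → ℝ),
    (∀ x : Fin d → ℝ, form T x = qf (Matrix.of fun a b => T ![a, b]) x) ∧
    (SymT T → (Matrix.of fun a b => T ![a, b] : Matrix (Fin d) (Fin d) ℝ).IsSymm)

/-- the final statement -/
def S_RES : Prop :=
  (∀ p : ℝ, 2 < p → p ≤ 4 → ∀ d n : ℕ, 1 ≤ d → ∀ T : Fin n → (Fin 2 → Fin d) → ℝ,
    (∀ i, SymT (T i)) →
      Integrable (fun g => injNorm p (gs T g)) (gm n) ∧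
      ∫ g, injNorm p (gs T g) ∂(gm n) ≤
        40 * Real.sqrt (Real.log (Real.exp 1 * d)) * (d : ℝ) ^ (1 / 2 - 1 / p) *
          Real.sqrt (∑ i, injNorm p (T i) ^ 2)) ∧
  ∀ p : ℝ, 2 < p → p ≤ 4 → Star 2 p

end Pool.Agent.H999R5.Inj
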