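import Pool.Agent.H999R5.Inj.Defs

/-!
# BDD: the set in the definition of `injNorm` is nonempty and bounded above
-/

set_option autoImplicit false

namespace Pool.Agent.H999R5.Inj

open MeasureTheory ProbabilityTheory Finset
open scoped Matrix

namespace T_BDD

theorem rpow_le_one_iff' {s p : ℝ} (hs : 0 ≤ s) (hp : 0 < p) : s ^ (1 / p) ≤ 1 ↔ s ≤ 1 := by
  have hp' : 0 < 1 / p := by positivity
  constructor
  · intro h
    by_contra hc
    have := Real.one_lt_rpow (not_le.mp hc) hp'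
    linarith
  · intro h
    exact Real.rpow_le_one hs h hp'.le

theorem sum_nonneg' {d : ℕ} (p : ℝ) (x : Fin d → ℝ) : 0 ≤ ∑ i, |x i| ^ p :=
  Finset.sum_nonneg fun i _ => Real.rpow_nonneg (abs_nonneg _) _

theorem abs_le_one {d : ℕ} {p : ℝ} (hp : 0 < p) (x : Fin d → ℝ) (hx : ∑ i, |x i| ^ p ≤ 1)
    (i : Fin d) : |x i| ≤ 1 := by
  by_contra hc
  have h1 := Real.one_lt_rpow (not_le.mp hc) hp
  have h2 : |x i| ^ p ≤ ∑ i, |x i| ^ p :=
    Finset.single_le_sum (f := fun i => |x i| ^ p)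
      (fun j _ => Real.rpow_nonneg (abs_nonneg _) _) (Finset.mem_univ i)
  linarith

theorem form_le {d r : ℕ} {p : ℝ} (hp : 0 < p) (T : (Fin r → Fin d) → ℝ) (x : Fin d → ℝ)
    (hx : ∑ i, |x i| ^ p ≤ 1) : |form T x| ≤ ∑ k, |T k| := by
  unfold form
  refine (Finset.abs_sum_le_sum_abs _ _).trans (Finset.sum_le_sum fun k _ => ?_)
  rw [abs_mul, Finset.abs_prod]
  have h1 : ∏ j, |x (k j)| ≤ 1 :=
    Finset.prod_le_one (fun j _ => abs_nonneg _) (fun j _ => abs_le_one hp x hx (k j))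
  calc |T k| * ∏ j, |x (k j)| ≤ |T k| * 1 := mul_le_mul_of_nonneg_left h1 (abs_nonneg _)
    _ = |T k| := mul_one _

end T_BDD

open T_BDD in
theorem t_BDD : S_BDD := by
  intro d r p hp T
  have hbdd : BddAbove {y : ℝ | ∃ x : Fin d → ℝ, (∑ i, |x i| ^ p) ^ (1 / p) ≤ 1 ∧
      y = |form T x|} := by
    refine ⟨∑ k, |T k|, ?_⟩
    rintro y ⟨x, hx, rfl⟩
    exact form_le hp T x ((rpow_le_one_iff' (sum_nonneg' p x) hp).mp hx)
  have hne : {y : ℝ | ∃ x : Fin d → ℝ, (∑ i, |x i| ^ p) ^ (1 / p) ≤ 1 ∧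
      y = |form T x|}.Nonempty := by
    refine ⟨|form T 0|, 0, ?_, rfl⟩
    rw [rpow_le_one_iff' (sum_nonneg' p _) hp]
    simp [Real.zero_rpow hp.ne']
  refine ⟨?_, ?_, ?_⟩
  · intro x hx
    exact le_csSup hbdd ⟨x, (rpow_le_one_iff' (sum_nonneg' p x) hp).mpr hx, rfl⟩
  · intro B hB
    refine csSup_le hne ?_
    rintro y ⟨x, hx, rfl⟩
    exact hB x ((rpow_le_one_iff' (sum_nonneg' p x) hp).mp hx)
  · refine Real.sSup_nonneg ?_
    rintro y ⟨x, hx, rfl⟩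
    exact abs_nonneg _

end Pool.Agent.H999R5.Inj
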