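import Pool.Agent.H999R5.Inj.Defs

set_option autoImplicit false

namespace Pool.Agent.H999R5.Inj

open MeasureTheory ProbabilityTheory Finset
open scoped Matrix

theorem t_BR : S_BR := by
  intro d T
  constructor
  · intro x
    unfold form qf
    have h : ∑ k : Fin 2 → Fin d, T k * ∏ j, x (k j) =
        ∑ q : Fin d × Fin d, T ![q.1, q.2] * (x q.1 * x q.2) := by
      refine Fintype.sum_equiv (finTwoArrowEquiv (Fin d)) _ _ ?_
      intro k
      rw [Fin.prod_univ_two]
      have hk : k = ![k 0, k 1] := by
        ext i
        fin_cases i <;> rfl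
      change T k * (x (k 0) * x (k 1)) = T ![k 0, k 1] * (x (k 0) * x (k 1))
      rw [← hk]
    rw [h, Fintype.sum_prod_type]
    simp only [dotProduct, Matrix.mulVec, Matrix.of_apply]
    refine Finset.sum_congr rfl fun a _ => ?_
    rw [Finset.mul_sum]
    refine Finset.sum_congr rfl fun b _ => ?_
    ring
  · intro hT
    ext a b
    rw [Matrix.transpose_apply, Matrix.of_apply, Matrix.of_apply]
    have h := hT (Equiv.swap 0 1) ![a, b]
    rw [← h]
    congr 1
    ext i
    fin_cases i <;> simp

end Pool.Agent.H999R5.Inj
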