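import Pool.Agent.H999R5.Inj.Defs

set_option autoImplicit false

namespace Pool.Agent.H999R5.Inj

open MeasureTheory ProbabilityTheory Finset

theorem CTS_form {d r n : ℕ} (T : Fin n → (Fin r → Fin d) → ℝ) (g : Fin n → ℝ)
    (x : Fin d → ℝ) : form (gs T g) x = ∑ i, g i * form (T i) x := by
  unfold form gs
  simp only [Finset.sum_mul, Finset.mul_sum]
  rw [Finset.sum_comm]
  refine Finset.sum_congr rfl fun i _ => Finset.sum_congr rfl fun k _ => ?_
  ring

theorem t_CTS (h : S_BDD) : S_CTS := by
  intro d r n p hp T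
  set c : Fin n → ℝ := fun i => injNorm p (T i) with hcdef
  have hc : ∀ i, 0 ≤ c i := fun i => (h d r p hp (T i)).2.2
  have hC : 0 ≤ ∑ i, c i := Finset.sum_nonneg fun i _ => hc i
  have key : ∀ g g' : Fin n → ℝ,
      injNorm p (gs T g) ≤ injNorm p (gs T g') + (∑ i, c i) * dist g g' := by
    intro g g'
    refine (h d r p hp (gs T g)).2.1 _ fun x hx => ?_
    have h1 : form (gs T g) x = form (gs T g') x + ∑ i, (g i - g' i) * form (T i) x := by
      rw [CTS_form, CTS_form, ← Finset.sum_add_distrib]
      refine Finset.sum_congr rfl fun i _ => ?_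
      ring
    rw [h1]
    refine (abs_add_le _ _).trans (add_le_add ((h d r p hp (gs T g')).1 x hx) ?_)
    refine (Finset.abs_sum_le_sum_abs _ _).trans ?_
    rw [Finset.sum_mul]
    refine Finset.sum_le_sum fun i _ => ?_
    rw [abs_mul, mul_comm]
    apply mul_le_mul ((h d r p hp (T i)).1 x hx) _ (abs_nonneg _) (hc i)
    rw [← Real.dist_eq]
    exact dist_le_pi_dist g g' i
  have hL : LipschitzWith (Real.toNNReal (∑ i, c i))
      (fun g : Fin n → ℝ => injNorm p (gs T g)) := by
    apply LipschitzWith.of_le_add_mul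
    intro g g'
    rw [Real.coe_toNNReal _ hC]
    exact key g g'
  exact hL.continuous

end Pool.Agent.H999R5.Inj
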