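import Pool.Agent.H999R5.Inj.Defs

/-!
HZ: Heinz type trace inequality
-/

set_option autoImplicit false

namespace Pool.Agent.H999R5.Inj

namespace HZx

open Matrix Finset

/-- orthogonal diagonalisation of a symmetric matrix -/
theorem diag {d : ℕ} (X : Matrix (Fin d) (Fin d) ℝ) (hX : X.IsSymm) :
    ∃ (V : Matrix (Fin d) (Fin d) ℝ) (l : Fin d → ℝ), V * V.transpose = 1 ∧
      V.transpose * V = 1 ∧ ∀ k : ℕ, X ^ k = V * diagonal (fun i => l i ^ k) * V.transpose := by
  have hH : X.IsHermitian := by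
    rw [Matrix.IsHermitian, Matrix.conjTranspose_eq_transpose_of_trivial]
    exact hX
  set U := hH.eigenvectorUnitary with hU
  have h1 : (U : Matrix (Fin d) (Fin d) ℝ) * (U : Matrix (Fin d) (Fin d) ℝ).transpose = 1 := by
    have := Matrix.mem_unitaryGroup_iff.1 U.2
    rw [Matrix.star_eq_conjTranspose, Matrix.conjTranspose_eq_transpose_of_trivial] at this
    exact this
  have h2 : (U : Matrix (Fin d) (Fin d) ℝ).transpose * (U : Matrix (Fin d) (Fin d) ℝ) = 1 := by
    have := Matrix.mem_unitaryGroup_iff'.1 U.2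
    rw [Matrix.star_eq_conjTranspose, Matrix.conjTranspose_eq_transpose_of_trivial] at this
    exact this
  have h3 : X = (U : Matrix (Fin d) (Fin d) ℝ) * diagonal (fun i => hH.eigenvalues i) *
      (U : Matrix (Fin d) (Fin d) ℝ).transpose := by
    have h := hH.spectral_theorem
    rw [Unitary.conjStarAlgAut_apply] at h
    rw [Matrix.star_eq_conjTranspose, Matrix.conjTranspose_eq_transpose_of_trivial] at h
    exact h
  refine ⟨U, hH.eigenvalues, h1, h2, ?_⟩
  intro k
  induction k with
  | zero =>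
    simp only [pow_zero]
    have : (diagonal fun _ : Fin d => (1 : ℝ)) = 1 := Matrix.diagonal_one
    rw [this, Matrix.mul_one, h1]
  | succ k ih =>
    have h4 : (diagonal fun i => hH.eigenvalues i ^ (k + 1)) =
        (diagonal fun i => hH.eigenvalues i ^ k) * (diagonal fun i => hH.eigenvalues i) := by
      rw [Matrix.diagonal_mul_diagonal]
      congr 1
    calc X ^ (k + 1) = X ^ k * X := pow_succ X k
      _ = ((U : Matrix (Fin d) (Fin d) ℝ) * (diagonal fun i => hH.eigenvalues i ^ k) *
            (U : Matrix (Fin d) (Fin d) ℝ).transpose) *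
          ((U : Matrix (Fin d) (Fin d) ℝ) * diagonal (fun i => hH.eigenvalues i) *
            (U : Matrix (Fin d) (Fin d) ℝ).transpose) := by rw [ih, ← h3]
      _ = (U : Matrix (Fin d) (Fin d) ℝ) * (diagonal fun i => hH.eigenvalues i ^ k) *
            ((U : Matrix (Fin d) (Fin d) ℝ).transpose * (U : Matrix (Fin d) (Fin d) ℝ)) *
            diagonal (fun i => hH.eigenvalues i) *
            (U : Matrix (Fin d) (Fin d) ℝ).transpose := by
          simp only [Matrix.mul_assoc]
      _ = _ := by
          rw [h2, Matrix.mul_one, h4]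
          simp only [Matrix.mul_assoc]

theorem tr4 {d : ℕ} (B : Matrix (Fin d) (Fin d) ℝ) (hB : B.IsSymm) (f g : Fin d → ℝ) :
    (B * diagonal f * B * diagonal g).trace = ∑ k, ∑ l, B k l ^ 2 * (f l * g k) := by
  unfold Matrix.trace
  refine Finset.sum_congr rfl fun k _ => ?_
  rw [Matrix.diag_apply, Matrix.mul_diagonal, Matrix.mul_apply, Finset.sum_mul]
  refine Finset.sum_congr rfl fun l _ => ?_
  rw [Matrix.mul_diagonal, hB.apply k l]
  ring

theorem scal (a b : ℝ) (q r j : ℕ) (h : q + r = 2 * j) :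
    a ^ q * b ^ r + b ^ q * a ^ r ≤ a ^ (2 * j) + b ^ (2 * j) := by
  have h1 : a ^ q * b ^ r ≤ |a| ^ q * |b| ^ r := by
    rw [← abs_pow, ← abs_pow, ← abs_mul]
    exact le_abs_self _
  have h2 : b ^ q * a ^ r ≤ |b| ^ q * |a| ^ r := by
    rw [← abs_pow, ← abs_pow, ← abs_mul]
    exact le_abs_self _
  have h3 : a ^ (2 * j) = |a| ^ q * |a| ^ r := by
    rw [← pow_add, h, pow_mul, pow_mul, sq_abs]
  have h4 : b ^ (2 * j) = |b| ^ q * |b| ^ r := by
    rw [← pow_add, h, pow_mul, pow_mul, sq_abs]
  have h5 : 0 ≤ (|a| ^ q - |b| ^ q) * (|a| ^ r - |b| ^ r) := by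
    rcases le_total |a| |b| with hab | hab
    · exact mul_nonneg_of_nonpos_of_nonpos
        (sub_nonpos.2 (pow_le_pow_left₀ (abs_nonneg a) hab q))
        (sub_nonpos.2 (pow_le_pow_left₀ (abs_nonneg a) hab r))
    · exact mul_nonneg (sub_nonneg.2 (pow_le_pow_left₀ (abs_nonneg b) hab q))
        (sub_nonneg.2 (pow_le_pow_left₀ (abs_nonneg b) hab r))
  rw [h3, h4]
  linarith

end HZx

open Matrix Finset HZx in
theorem t_HZ : S_HZ := by
  intro d A X hA hX j q hq
  obtain ⟨V, l, h1, h2, hp⟩ := diag X hX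
  set B := V.transpose * A * V with hBd
  have hB : B.IsSymm := by
    rw [Matrix.IsSymm, hBd, Matrix.transpose_mul, Matrix.transpose_mul, Matrix.transpose_transpose,
      hA.eq, Matrix.mul_assoc]
  obtain ⟨r, hr⟩ : ∃ r, q + r = 2 * j := ⟨2 * j - q, by omega⟩
  have hr' : 2 * j - q = r := by omega
  have e1 : (A * X ^ q * A * X ^ r).trace =
      (B * diagonal (fun i => l i ^ q) * B * diagonal (fun i => l i ^ r)).trace := by
    rw [hp q, hp r]
    calc (A * (V * diagonal (fun i => l i ^ q) * V.transpose) * A *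
          (V * diagonal (fun i => l i ^ r) * V.transpose)).trace
        = ((A * V * diagonal (fun i => l i ^ q) * V.transpose * A * V *
            diagonal (fun i => l i ^ r)) * V.transpose).trace := by
          simp only [Matrix.mul_assoc]
      _ = (V.transpose * (A * V * diagonal (fun i => l i ^ q) * V.transpose * A * V *
            diagonal (fun i => l i ^ r))).trace := Matrix.trace_mul_comm _ _
      _ = _ := by
          rw [hBd]
          simp only [Matrix.mul_assoc]
  have e2 : (A * A * X ^ (2 * j)).trace =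
      (B * diagonal (fun _ => (1 : ℝ)) * B * diagonal (fun i => l i ^ (2 * j))).trace := by
    have hone : (diagonal fun _ : Fin d => (1 : ℝ)) = 1 := Matrix.diagonal_one
    rw [hp (2 * j), hone, Matrix.mul_one]
    calc (A * A * (V * diagonal (fun i => l i ^ (2 * j)) * V.transpose)).trace
        = ((A * A * V * diagonal (fun i => l i ^ (2 * j))) * V.transpose).trace := by
          simp only [Matrix.mul_assoc]
      _ = (V.transpose * (A * A * V * diagonal (fun i => l i ^ (2 * j)))).trace :=
          Matrix.trace_mul_comm _ _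
      _ = (V.transpose * A * 1 * A * V * diagonal (fun i => l i ^ (2 * j))).trace := by
          rw [Matrix.mul_one]
          simp only [Matrix.mul_assoc]
      _ = (V.transpose * A * (V * V.transpose) * A * V *
            diagonal (fun i => l i ^ (2 * j))).trace := by rw [h1]
      _ = _ := by
          rw [hBd]
          simp only [Matrix.mul_assoc]
  rw [hr', e1, e2, tr4 B hB, tr4 B hB]
  have s1 : ∑ k, ∑ m, B k m ^ 2 * (l m ^ q * l k ^ r) =
      ∑ k, ∑ m, B k m ^ 2 * (l k ^ q * l m ^ r) := by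
    rw [Finset.sum_comm]
    refine Finset.sum_congr rfl fun k _ => Finset.sum_congr rfl fun m _ => ?_
    rw [hB.apply m k]
  have s2 : ∑ k, ∑ m, B k m ^ 2 * (1 * l k ^ (2 * j)) =
      ∑ k, ∑ m, B k m ^ 2 * (1 * l m ^ (2 * j)) := by
    rw [Finset.sum_comm]
    refine Finset.sum_congr rfl fun k _ => Finset.sum_congr rfl fun m _ => ?_
    rw [hB.apply m k]
  have s3 : ∑ k, ∑ m, B k m ^ 2 * (l m ^ q * l k ^ r) + ∑ k, ∑ m, B k m ^ 2 * (l k ^ q * l m ^ r) ≤
      ∑ k, ∑ m, B k m ^ 2 * (1 * l k ^ (2 * j)) + ∑ k, ∑ m, B k m ^ 2 * (1 * l m ^ (2 * j)) := by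
    rw [← Finset.sum_add_distrib, ← Finset.sum_add_distrib]
    refine Finset.sum_le_sum fun k _ => ?_
    rw [← Finset.sum_add_distrib, ← Finset.sum_add_distrib]
    refine Finset.sum_le_sum fun m _ => ?_
    have h3 := mul_le_mul_of_nonneg_left (scal (l m) (l k) q r j hr) (sq_nonneg (B k m))
    linarith
  linarith

end Pool.Agent.H999R5.Inj
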