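import Pool.Agent.H999R5.Inj.Defs

set_option autoImplicit false

namespace Pool.Agent.H999R5.Inj

open MeasureTheory ProbabilityTheory Finset
open scoped Matrix

namespace IBP

variable {n d : ℕ}

/-- constant matrices -/
noncomputable def cM (B : Matrix (Fin d) (Fin d) ℝ) :
    Matrix (Fin d) (Fin d) (MvPolynomial (Fin n) ℝ) := B.map MvPolynomial.C

/-- the polynomial matrix `∑ X_i A_i` -/
noncomputable def XX (A : Fin n → Matrix (Fin d) (Fin d) ℝ) :
    Matrix (Fin d) (Fin d) (MvPolynomial (Fin n) ℝ) :=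
  Matrix.of fun k l => ∑ i, MvPolynomial.X i * MvPolynomial.C (A i k l)

/-- evaluation -/
noncomputable def ev (g : Fin n → ℝ) :
    Matrix (Fin d) (Fin d) (MvPolynomial (Fin n) ℝ) →+* Matrix (Fin d) (Fin d) ℝ :=
  (MvPolynomial.eval g).mapMatrix

theorem ev_apply (g : Fin n → ℝ) (M : Matrix (Fin d) (Fin d) (MvPolynomial (Fin n) ℝ))
    (k l : Fin d) : ev g M k l = MvPolynomial.eval g (M k l) := rfl

theorem ev_cM (g : Fin n → ℝ) (B : Matrix (Fin d) (Fin d) ℝ) : ev g (cM B) = B := by
  ext k l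
  rw [ev_apply]
  change MvPolynomial.eval g (MvPolynomial.C (B k l)) = _
  rw [MvPolynomial.eval_C]

theorem ev_XX (g : Fin n → ℝ) (A : Fin n → Matrix (Fin d) (Fin d) ℝ) :
    ev g (XX A) = GX A g := by
  ext k l
  rw [ev_apply]
  unfold XX GX
  rw [Matrix.of_apply, map_sum, Matrix.sum_apply]
  refine Finset.sum_congr rfl fun i _ => ?_
  rw [map_mul, MvPolynomial.eval_X, MvPolynomial.eval_C, Matrix.smul_apply, smul_eq_mul]

theorem ev_trace (g : Fin n → ℝ) (M : Matrix (Fin d) (Fin d) (MvPolynomial (Fin n) ℝ)) :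
    MvPolynomial.eval g M.trace = (ev g M).trace := by
  unfold Matrix.trace
  rw [map_sum]
  rfl

/-- entrywise derivative -/
noncomputable def DD (i : Fin n) (M : Matrix (Fin d) (Fin d) (MvPolynomial (Fin n) ℝ)) :
    Matrix (Fin d) (Fin d) (MvPolynomial (Fin n) ℝ) := M.map (MvPolynomial.pderiv i)

theorem DD_apply (i : Fin n) (M : Matrix (Fin d) (Fin d) (MvPolynomial (Fin n) ℝ)) (k l : Fin d) :
    DD i M k l = MvPolynomial.pderiv i (M k l) := rfl

theorem DD_mul (i : Fin n) (U V : Matrix (Fin d) (Fin d) (MvPolynomial (Fin n) ℝ)) :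
    DD i (U * V) = DD i U * V + U * DD i V := by
  ext1 k l
  rw [DD_apply, Matrix.mul_apply, map_sum, Matrix.add_apply, Matrix.mul_apply, Matrix.mul_apply,
    ← Finset.sum_add_distrib]
  refine Finset.sum_congr rfl fun j _ => ?_
  rw [Derivation.leibniz, smul_eq_mul, smul_eq_mul, DD_apply, DD_apply]
  ring

theorem DD_cM (i : Fin n) (B : Matrix (Fin d) (Fin d) ℝ) : DD i (cM B) = 0 := by
  ext1 k l
  rw [DD_apply]
  exact MvPolynomial.pderiv_C

theorem DD_XX (i : Fin n) (A : Fin n → Matrix (Fin d) (Fin d) ℝ) :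
    DD i (XX A) = cM (A i) := by
  ext1 k l
  rw [DD_apply]
  unfold XX cM
  rw [Matrix.of_apply, map_sum, Matrix.map_apply, Finset.sum_eq_single i]
  · rw [Derivation.leibniz, MvPolynomial.pderiv_C, MvPolynomial.pderiv_X_self, smul_zero, zero_add,
      smul_eq_mul, mul_one]
  · intro j _ hj
    rw [Derivation.leibniz, MvPolynomial.pderiv_C, MvPolynomial.pderiv_X_of_ne hj, smul_zero,
      smul_zero, add_zero]
  · intro h
    exact absurd (Finset.mem_univ i) h

theorem DD_pow (i : Fin n) (A : Fin n → Matrix (Fin d) (Fin d) ℝ) (m : ℕ) :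
    DD i (XX A ^ (m + 1)) = ∑ q ∈ range (m + 1), XX A ^ q * cM (A i) * XX A ^ (m - q) := by
  induction m with
  | zero => simp [DD_XX]
  | succ m ih =>
    rw [pow_succ, DD_mul, ih, DD_XX, Finset.sum_range_succ _ (m + 1), Nat.sub_self, pow_zero,
      mul_one, Finset.sum_mul]
    congr 1
    refine Finset.sum_congr rfl fun q hq => ?_
    have hq' : m + 1 - q = (m - q) + 1 := by
      have := Finset.mem_range.1 hq
      omega
    rw [hq', pow_succ, mul_assoc, mul_assoc]

theorem pderiv_trace (i : Fin n) (M : Matrix (Fin d) (Fin d) (MvPolynomial (Fin n) ℝ)) :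
    MvPolynomial.pderiv i M.trace = (DD i M).trace := by
  unfold Matrix.trace
  rw [map_sum]
  rfl

end IBP

open IBP in
theorem t_IBP (h : S_GAU) : S_IBP := by
  intro n d A
  have e1 : ∀ (B : Matrix (Fin d) (Fin d) ℝ) (m : ℕ) (g : Fin n → ℝ),
      MvPolynomial.eval g (cM B * XX A ^ m).trace = (B * GX A g ^ m).trace := fun B m g => by
    rw [ev_trace, map_mul, map_pow, ev_cM, ev_XX]
  have e3 : ∀ (i : Fin n) (m q : ℕ) (g : Fin n → ℝ),
      MvPolynomial.eval g (cM (A i) * XX A ^ q * cM (A i) * XX A ^ m).trace =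
        (A i * GX A g ^ q * A i * GX A g ^ m).trace := fun i m q g => by
    rw [ev_trace, map_mul, map_mul, map_mul, map_pow, map_pow, ev_cM, ev_XX]
  have i3 : ∀ (i : Fin n) (m q : ℕ),
      Integrable (fun g => (A i * GX A g ^ q * A i * GX A g ^ m).trace) (gm n) := fun i m q => by
    have := (h n (cM (A i) * XX A ^ q * cM (A i) * XX A ^ m).trace).1
    simpa only [e3] using this
  refine ⟨fun B m => ?_, fun B m i => ?_, i3, fun i m => ?_⟩
  · have := (h n (cM B * XX A ^ m).trace).1
    simpa only [e1] using this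
  · have := (h n (MvPolynomial.X i * (cM B * XX A ^ m).trace)).1
    simpa only [map_mul, MvPolynomial.eval_X, e1] using this
  · have h2 := (h n (cM (A i) * XX A ^ (m + 1)).trace).2 i
    simp only [e1] at h2
    rw [h2, pderiv_trace, DD_mul, DD_cM, zero_mul, zero_add, DD_pow, Finset.mul_sum,
      Matrix.trace_sum]
    simp only [map_sum, ← mul_assoc, e3]
    exact integral_finsetSum _ fun q _ => i3 i (m - q) q

end Pool.Agent.H999R5.Inj
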