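import Pool.Agent.H999R5.Inj.Defs

/-!
# Task KH: Khintchine inequality with fourth moments
-/

set_option autoImplicit false

namespace Pool.Agent.H999R5.Inj

namespace T_KH

/-- the sign of a Boolean -/
noncomputable def sg (e : Bool) : ℝ := if e then (1 : ℝ) else -1

theorem sum_succ (d : ℕ) (b : Fin (d + 1) → ℝ) (f : ℝ → ℝ) :
    (∑ ε : Fin (d + 1) → Bool, f (∑ l, b l * sg (ε l))) =
      ∑ ε : Fin d → Bool, (f (b 0 + ∑ l, b l.succ * sg (ε l)) +
        f (-b 0 + ∑ l, b l.succ * sg (ε l))) := by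
  rw [← (Fin.consEquiv (fun _ : Fin (d + 1) => Bool)).sum_comp, Fintype.sum_prod_type]
  simp only [Fintype.sum_bool]
  rw [← Finset.sum_add_distrib]
  refine Finset.sum_congr rfl fun ε _ => ?_
  congr 1
  · congr 1
    rw [Fin.sum_univ_succ]
    simp [Fin.consEquiv, sg]
  · congr 1
    rw [Fin.sum_univ_succ]
    simp [Fin.consEquiv, sg]

theorem second (d : ℕ) : ∀ b : Fin d → ℝ,
    (∑ ε : Fin d → Bool, (∑ l, b l * sg (ε l)) ^ 2) = 2 ^ d * ∑ l, b l ^ 2 := by
  induction d with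
  | zero => intro b; simp
  | succ d ih =>
    intro b
    have h1 := sum_succ d b (fun x => x ^ 2)
    rw [h1, Fin.sum_univ_succ (f := fun l => b l ^ 2)]
    have h2 : ∀ ε : Fin d → Bool, (b 0 + ∑ l, b l.succ * sg (ε l)) ^ 2 +
        (-b 0 + ∑ l, b l.succ * sg (ε l)) ^ 2 =
        2 * b 0 ^ 2 + 2 * (∑ l, b l.succ * sg (ε l)) ^ 2 := by
      intro ε
      ring
    simp only [h2]
    simp only [Finset.sum_add_distrib, ← Finset.mul_sum]
    rw [ih (fun l => b l.succ)]
    simp only [Finset.sum_const, Finset.card_univ, Fintype.card_pi, Fintype.card_bool,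
      Finset.prod_const, Fintype.card_fin, nsmul_eq_mul]
    push_cast
    ring

theorem fourth (d : ℕ) : ∀ b : Fin d → ℝ,
    (∑ ε : Fin d → Bool, (∑ l, b l * sg (ε l)) ^ 4) ≤ 2 ^ d * (3 * (∑ l, b l ^ 2) ^ 2) := by
  induction d with
  | zero => intro b; simp
  | succ d ih =>
    intro b
    have h1 := sum_succ d b (fun x => x ^ 4)
    rw [h1, Fin.sum_univ_succ (f := fun l => b l ^ 2)]
    have h2 : ∀ ε : Fin d → Bool, (b 0 + ∑ l, b l.succ * sg (ε l)) ^ 4 +
        (-b 0 + ∑ l, b l.succ * sg (ε l)) ^ 4 =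
        2 * b 0 ^ 4 + 12 * b 0 ^ 2 * (∑ l, b l.succ * sg (ε l)) ^ 2 +
        2 * (∑ l, b l.succ * sg (ε l)) ^ 4 := by
      intro ε
      ring
    simp only [h2]
    simp only [Finset.sum_add_distrib, ← Finset.mul_sum]
    rw [second d (fun l => b l.succ)]
    simp only [Finset.sum_const, Finset.card_univ, Fintype.card_pi, Fintype.card_bool,
      Finset.prod_const, Fintype.card_fin, nsmul_eq_mul]
    have h3 := ih (fun l => b l.succ)
    have h4 : (0 : ℝ) ≤ 2 ^ d * b 0 ^ 4 := by positivity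
    push_cast
    rw [pow_succ (2 : ℝ) d]
    nlinarith [h3, h4]

end T_KH

open T_KH in
theorem t_KH : S_KH := by
  intro d p hp2 hp4 b
  have hp0 : 0 < p := by linarith
  set V : ℝ := ∑ l, b l ^ 2 with hV
  have hV0 : 0 ≤ V := Finset.sum_nonneg fun l _ => sq_nonneg _
  set S : (Fin d → Bool) → ℝ := fun ε => ∑ l, b l * (if ε l then (1 : ℝ) else -1) with hS
  have h4 : (∑ ε, (S ε) ^ 4) ≤ 2 ^ d * (3 * V ^ 2) := fourth d b
  have h2d : (0 : ℝ) < 2 ^ d := by positivity
  have hpm := Real.rpow_arith_mean_le_arith_mean_rpow (Finset.univ : Finset (Fin d → Bool))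
    (fun _ => 1 / (2 : ℝ) ^ d) (fun ε => |S ε| ^ p) (fun _ _ => by positivity)
    (by
      simp only [Finset.sum_const, Finset.card_univ, Fintype.card_pi, Fintype.card_bool,
        Finset.prod_const, Fintype.card_fin, nsmul_eq_mul]
      push_cast
      field_simp)
    (fun _ _ => by positivity) (p := 4 / p) (by rw [le_div_iff₀ hp0]; linarith)
  have h5 : ∀ ε, (|S ε| ^ p) ^ (4 / p) = (S ε) ^ 4 := by
    intro ε
    rw [← Real.rpow_mul (abs_nonneg _)]
    have h6 : p * (4 / p) = (4 : ℕ) := by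
      field_simp
      norm_num
    rw [h6, Real.rpow_natCast]
    exact Even.pow_abs (by decide) _
  simp only [h5] at hpm
  rw [← Finset.mul_sum, ← Finset.mul_sum] at hpm
  set a : ℝ := (∑ ε, |S ε| ^ p) / 2 ^ d with ha
  have ha0 : 0 ≤ a := by positivity
  have hpm2 : a ^ (4 / p) ≤ 3 * V ^ 2 := by
    have h7 : 1 / (2 : ℝ) ^ d * ∑ ε, |S ε| ^ p = a := by
      rw [ha]
      ring
    rw [h7] at hpm
    refine hpm.trans ?_
    rw [one_div, inv_mul_le_iff₀ h2d]
    exact h4
  have h8 : a = (a ^ (4 / p)) ^ (p / 4) := by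
    rw [← Real.rpow_mul ha0]
    have : 4 / p * (p / 4) = 1 := by
      field_simp
    rw [this, Real.rpow_one]
  calc a = (a ^ (4 / p)) ^ (p / 4) := h8
    _ ≤ (3 * V ^ 2) ^ (p / 4) := Real.rpow_le_rpow (by positivity) hpm2 (by positivity)
    _ = (3 : ℝ) ^ (p / 4) * V ^ (p / 2) := by
      rw [Real.mul_rpow (by norm_num) (by positivity), ← Real.rpow_natCast V 2,
        ← Real.rpow_mul hV0]
      congr 2
      push_cast
      ring

end Pool.Agent.H999R5.Inj
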