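import Pool.Agent.H999R5.Inj.Defs

set_option autoImplicit false

namespace Pool.Agent.H999R5.Inj

open MeasureTheory ProbabilityTheory Finset
open scoped Matrix

namespace NCKaux

instance gm_prob (n : ℕ) : IsProbabilityMeasure (gm n) := by
  unfold gm
  infer_instance

theorem GX_symm {n d : ℕ} (A : Fin n → Matrix (Fin d) (Fin d) ℝ) (hA : ∀ i, (A i).IsSymm)
    (g : Fin n → ℝ) : (GX A g).IsSymm := by
  unfold GX Matrix.IsSymm
  rw [Matrix.transpose_sum]
  refine Finset.sum_congr rfl fun i _ => ?_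
  rw [Matrix.transpose_smul, (hA i).eq]

theorem GX_pow {n d : ℕ} (A : Fin n → Matrix (Fin d) (Fin d) ℝ) (g : Fin n → ℝ) (k : ℕ) :
    (GX A g ^ (k + 1)).trace = ∑ i, g i * (A i * GX A g ^ k).trace := by
  have h1 : GX A g ^ (k + 1) = ∑ i, g i • (A i * GX A g ^ k) := by
    rw [pow_succ']
    conv_lhs => enter [1]; unfold GX
    rw [Finset.sum_mul]
    refine Finset.sum_congr rfl fun i _ => ?_
    rw [Matrix.smul_mul]
  rw [h1, Matrix.trace_sum]
  refine Finset.sum_congr rfl fun i _ => ?_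
  rw [Matrix.trace_smul, smul_eq_mul]

theorem int_pow (hI : S_IBP) {n d : ℕ} (A : Fin n → Matrix (Fin d) (Fin d) ℝ) (k : ℕ) :
    Integrable (fun g => (GX A g ^ k).trace) (gm n) := by
  have h := (hI n d A).1 1 k
  simpa only [one_mul] using h

theorem bound (hI : S_IBP) (hH : S_HZ) (hT : S_TR) {n d : ℕ}
    (A : Fin n → Matrix (Fin d) (Fin d) ℝ) (hA : ∀ i, (A i).IsSymm)
    (hP : (1 - ∑ i, A i * A i).PosSemidef) (m : ℕ) :
    ∫ g, (GX A g ^ (2 * m)).trace ∂(gm n) ≤ (∏ j ∈ range m, (2 * (j:ℝ) + 1)) * d := by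
  induction m with
  | zero =>
    simp
  | succ m ih =>
    obtain ⟨i1, i2, i3, i4⟩ := hI n d A
    have e1 : ∫ g, (GX A g ^ (2 * (m + 1))).trace ∂(gm n) =
        ∑ i, ∫ g, g i * (A i * GX A g ^ (2 * m + 1)).trace ∂(gm n) := by
      rw [← integral_finsetSum _ fun i _ => i2 (A i) (2 * m + 1) i]
      refine integral_congr_ae (Filter.Eventually.of_forall fun g => ?_)
      exact GX_pow A g (2 * m + 1)
    have e2 : ∀ i, ∫ g, g i * (A i * GX A g ^ (2 * m + 1)).trace ∂(gm n) ≤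
        (2 * (m:ℝ) + 1) * ∫ g, (A i * A i * GX A g ^ (2 * m)).trace ∂(gm n) := by
      intro i
      rw [i4 i (2 * m)]
      have h1 : ∀ q ∈ range (2 * m + 1),
          ∫ g, (A i * GX A g ^ q * A i * GX A g ^ (2 * m - q)).trace ∂(gm n) ≤
            ∫ g, (A i * A i * GX A g ^ (2 * m)).trace ∂(gm n) := by
        intro q hq
        refine integral_mono (i3 i (2 * m - q) q) (i1 (A i * A i) (2 * m)) fun g => ?_
        exact hH d (A i) (GX A g) (hA i) (GX_symm A hA g) m q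
          (Nat.lt_succ_iff.1 (Finset.mem_range.1 hq))
      refine (Finset.sum_le_sum h1).trans (le_of_eq ?_)
      rw [Finset.sum_const, Finset.card_range, nsmul_eq_mul]
      push_cast
      ring
    have e3 : ∑ i, ∫ g, (A i * A i * GX A g ^ (2 * m)).trace ∂(gm n) ≤
        ∫ g, (GX A g ^ (2 * m)).trace ∂(gm n) := by
      rw [← integral_finsetSum _ fun i _ => i1 (A i * A i) (2 * m)]
      refine integral_mono (integrable_finsetSum _ fun i _ => i1 (A i * A i) (2 * m))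
        (int_pow hI A (2 * m)) fun g => ?_
      have h2 := hT d (∑ i, A i * A i) (GX A g) hP (GX_symm A hA g) m
      rw [Finset.sum_mul, Matrix.trace_sum] at h2
      exact h2
    rw [e1, Finset.prod_range_succ]
    calc ∑ i, ∫ g, g i * (A i * GX A g ^ (2 * m + 1)).trace ∂(gm n)
        ≤ ∑ i, (2 * (m:ℝ) + 1) * ∫ g, (A i * A i * GX A g ^ (2 * m)).trace ∂(gm n) :=
          Finset.sum_le_sum fun i _ => e2 i
      _ = (2 * (m:ℝ) + 1) * ∑ i, ∫ g, (A i * A i * GX A g ^ (2 * m)).trace ∂(gm n) := by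
          rw [Finset.mul_sum]
      _ ≤ (2 * (m:ℝ) + 1) * ∫ g, (GX A g ^ (2 * m)).trace ∂(gm n) :=
          mul_le_mul_of_nonneg_left e3 (by positivity)
      _ ≤ (2 * (m:ℝ) + 1) * ((∏ j ∈ range m, (2 * (j:ℝ) + 1)) * d) :=
          mul_le_mul_of_nonneg_left ih (by positivity)
      _ = (∏ j ∈ range m, (2 * (j:ℝ) + 1)) * (2 * (m:ℝ) + 1) * d := by ring

theorem prod_le (m : ℕ) : ∏ j ∈ range m, (2 * (j:ℝ) + 1) ≤ (2 * m : ℝ) ^ m := by
  calc ∏ j ∈ range m, (2 * (j:ℝ) + 1) ≤ ∏ _j ∈ range m, (2 * m : ℝ) := by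
        refine Finset.prod_le_prod (fun j _ => by positivity) fun j hj => ?_
        have h1 : j + 1 ≤ m := Finset.mem_range.1 hj
        have h2 : ((j:ℝ) + 1) ≤ m := by exact_mod_cast h1
        linarith
    _ = (2 * m : ℝ) ^ m := by rw [Finset.prod_const, Finset.card_range]

end NCKaux

open NCKaux

/-- NCK: noncommutative Khintchine inequality for traces -/
theorem t_NCK (hI : S_IBP) (hH : S_HZ) (hT : S_TR) : S_NCK := by
  intro n d A hA hP m
  refine ⟨int_pow hI A (2 * m), (bound hI hH hT A hA hP m).trans ?_⟩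
  exact mul_le_mul_of_nonneg_right (prod_le m) (Nat.cast_nonneg d)

end Pool.Agent.H999R5.Inj
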