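import Pool.Agent.H999R5.Inj.Defs

/-!
# OP: expected norm of a Gaussian matrix series
-/

set_option autoImplicit false

namespace Pool.Agent.H999R5.Inj

open MeasureTheory ProbabilityTheory Finset
open scoped Matrix

namespace OPaux

/-- weighted AM-GM -/
theorem amgm (a c t : ℝ) (ha0 : 0 < a) (ha1 : a ≤ 1) (hc : 0 < c) (ht : 0 ≤ t) :
    t ^ a ≤ a * (t * c ^ (a - 1)) + (1 - a) * c ^ a := by
  have h := Real.geom_mean_le_arith_mean2_weighted (w₁ := a) (w₂ := 1 - a) (p₁ := t / c)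
    (p₂ := 1) ha0.le (by linarith) (by positivity) zero_le_one (by ring)
  rw [Real.one_rpow, mul_one, mul_one] at h
  have h1 : t ^ a = (t / c) ^ a * c ^ a := by
    rw [← Real.mul_rpow (by positivity) hc.le, div_mul_cancel₀ _ hc.ne']
  have h2 : c ^ (a - 1) = c ^ a / c := Real.rpow_sub_one hc.ne' a
  have hca : 0 < c ^ a := Real.rpow_pos_of_pos hc a
  rw [h1, h2]
  calc (t / c) ^ a * c ^ a ≤ (a * (t / c) + (1 - a)) * c ^ a :=
        mul_le_mul_of_nonneg_right h hca.le
    _ = a * (t * (c ^ a / c)) + (1 - a) * c ^ a := by ring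

end OPaux

open OPaux in
theorem t_OP (hN : S_NCK) (hQ : S_QT) : S_OP := by
  intro n d hd A hA hS
  have hd1 : (1 : ℝ) ≤ d := by exact_mod_cast hd
  have hd0 : (0 : ℝ) < d := by linarith
  obtain ⟨L, hL⟩ : ∃ L, L = Real.log (Real.exp 1 * d) := ⟨_, rfl⟩
  have hL' : L = 1 + Real.log d := by
    rw [hL, Real.log_mul (Real.exp_pos 1).ne' hd0.ne', Real.log_exp]
  have hlogd : 0 ≤ Real.log d := Real.log_nonneg hd1
  have hL1 : 1 ≤ L := by linarith
  obtain ⟨m, hm⟩ : ∃ m : ℕ, m = ⌈L⌉₊ := ⟨_, rfl⟩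
  have hmL : L ≤ m := hm ▸ Nat.le_ceil L
  have hmL2 : (m : ℝ) ≤ 2 * L := by
    have := Nat.ceil_lt_add_one (by linarith : 0 ≤ L)
    rw [← hm] at this
    linarith
  have hm1 : (1 : ℝ) ≤ m := by linarith
  have hm1' : 1 ≤ m := by exact_mod_cast hm1
  have hsym : ∀ g, (GX A g).IsSymm := by
    intro g
    unfold GX Matrix.IsSymm
    rw [Matrix.transpose_sum]
    exact Finset.sum_congr rfl (fun i _ => by rw [Matrix.transpose_smul, (hA i).eq])
  obtain ⟨hint, hE⟩ := hN n d A hA hS m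
  have htr : ∀ g, 0 ≤ (GX A g ^ (2 * m)).trace := fun g => (hQ d (GX A g) (hsym g) m hm1').1
  obtain ⟨a, ha⟩ : ∃ a : ℝ, a = 1 / (2 * m : ℝ) := ⟨_, rfl⟩
  have ha0 : 0 < a := by rw [ha]; positivity
  have ha1 : a ≤ 1 := by
    rw [ha, div_le_one (by positivity)]
    linarith
  obtain ⟨c, hc⟩ : ∃ c : ℝ, c = (2 * m : ℝ) ^ m * d := ⟨_, rfl⟩
  have hc0 : 0 < c := by rw [hc]; positivity
  rw [← hc] at hE
  have hmaj : ∀ g, (GX A g ^ (2 * m)).trace ^ a ≤
      a * ((GX A g ^ (2 * m)).trace * c ^ (a - 1)) + (1 - a) * c ^ a :=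
    fun g => amgm a c _ ha0 ha1 hc0 (htr g)
  have hprob : IsProbabilityMeasure (gm n) := by
    unfold gm
    infer_instance
  have hi1 : Integrable (fun g => a * ((GX A g ^ (2 * m)).trace * c ^ (a - 1))) (gm n) :=
    (hint.mul_const _).const_mul _
  have hmajint : Integrable (fun g => a * ((GX A g ^ (2 * m)).trace * c ^ (a - 1)) +
      (1 - a) * c ^ a) (gm n) := hi1.add (integrable_const _)
  have hF0 : ∀ g, 0 ≤ (GX A g ^ (2 * m)).trace ^ a := fun g => Real.rpow_nonneg (htr g) a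
  have hFint : Integrable (fun g => (GX A g ^ (2 * m)).trace ^ a) (gm n) := by
    refine hmajint.mono' (hint.aestronglyMeasurable.aemeasurable.pow_const a).aestronglyMeasurable
      (Filter.Eventually.of_forall (fun g => ?_))
    rw [Real.norm_of_nonneg (hF0 g)]
    exact hmaj g
  refine ⟨fun g => (GX A g ^ (2 * m)).trace ^ a, hF0, hFint, fun g x => ?_, ?_⟩
  · have := (hQ d (GX A g) (hsym g) m hm1').2 x
    rw [← ha] at this
    exact this
  · rw [← hL]
    have e1 : ∫ g, (GX A g ^ (2 * m)).trace ^ a ∂(gm n) ≤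
        ∫ g, (a * ((GX A g ^ (2 * m)).trace * c ^ (a - 1)) + (1 - a) * c ^ a) ∂(gm n) :=
      integral_mono hFint hmajint hmaj
    have e2 : ∫ g, (a * ((GX A g ^ (2 * m)).trace * c ^ (a - 1)) + (1 - a) * c ^ a) ∂(gm n) =
        a * ((∫ g, (GX A g ^ (2 * m)).trace ∂(gm n)) * c ^ (a - 1)) + (1 - a) * c ^ a := by
      rw [integral_add hi1 (integrable_const _), integral_const_mul, integral_mul_const]
      simp
    have e3 : a * ((∫ g, (GX A g ^ (2 * m)).trace ∂(gm n)) * c ^ (a - 1)) ≤ a * c ^ a := by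
      refine mul_le_mul_of_nonneg_left ?_ ha0.le
      calc _ ≤ c * c ^ (a - 1) := mul_le_mul_of_nonneg_right hE (Real.rpow_nonneg hc0.le _)
        _ = c ^ a := by
          rw [Real.rpow_sub_one hc0.ne']
          field_simp
    have e4 : c ^ a = Real.sqrt (2 * m) * (d : ℝ) ^ a := by
      rw [hc, Real.mul_rpow (by positivity) hd0.le, ← Real.rpow_natCast,
        ← Real.rpow_mul (by positivity), Real.sqrt_eq_rpow, ha]
      congr 2
      field_simp
    have e5 : Real.sqrt (2 * m) ≤ 2 * Real.sqrt L := by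
      have h4 : (2 : ℝ) * Real.sqrt L = Real.sqrt (4 * L) := by
        rw [Real.sqrt_mul (by norm_num), show (4 : ℝ) = 2 ^ 2 by norm_num,
          Real.sqrt_sq (by norm_num)]
      rw [h4]
      exact Real.sqrt_le_sqrt (by linarith)
    have e6 : (d : ℝ) ^ a ≤ 2 := by
      have h1 : (d : ℝ) ^ a ≤ Real.exp (1 / 2) := by
        rw [Real.rpow_def_of_pos hd0]
        apply Real.exp_le_exp.2
        rw [ha, mul_one_div, div_le_div_iff₀ (by positivity) (by norm_num)]
        linarith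
      have h2 : Real.exp (1 / 2) ≤ 2 := by
        have h3 : Real.exp (1 / 2) ^ 2 = Real.exp 1 := by
          rw [← Real.exp_nat_mul]
          norm_num
        have h4 := Real.exp_one_lt_d9
        nlinarith [Real.exp_pos (1 / 2)]
      linarith
    have e7 : c ^ a ≤ 4 * Real.sqrt L := by
      rw [e4]
      calc _ ≤ (2 * Real.sqrt L) * 2 := mul_le_mul e5 e6 (by positivity) (by positivity)
        _ = _ := by ring
    have e8 : a * c ^ a + (1 - a) * c ^ a = c ^ a := by ring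
    linarith

end Pool.Agent.H999R5.Inj
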