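import Pool.Agent.H999R5.Inj.Defs

set_option autoImplicit false

namespace Pool.Agent.H999R5.Inj

open MeasureTheory ProbabilityTheory Finset
open scoped Matrix

theorem qt_spec {d : ℕ} (X : Matrix (Fin d) (Fin d) ℝ) (hX : X.IsSymm) :
    ∃ (U : Matrix (Fin d) (Fin d) ℝ) (l : Fin d → ℝ), U * Uᵀ = 1 ∧ Uᵀ * U = 1 ∧
      X = U * Matrix.diagonal l * Uᵀ := by
  have h : X.IsHermitian := by
    rw [Matrix.IsHermitian, Matrix.conjTranspose_eq_transpose_of_trivial]; exact hX
  refine ⟨(h.eigenvectorUnitary : Matrix (Fin d) (Fin d) ℝ), h.eigenvalues, ?_, ?_, ?_⟩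
  · have := Unitary.coe_mul_star_self h.eigenvectorUnitary
    rwa [Unitary.coe_star, Matrix.star_eq_conjTranspose,
      Matrix.conjTranspose_eq_transpose_of_trivial] at this
  · have := Unitary.coe_star_mul_self h.eigenvectorUnitary
    rwa [Matrix.star_eq_conjTranspose,
      Matrix.conjTranspose_eq_transpose_of_trivial] at this
  · have := h.spectral_theorem
    rw [Unitary.conjStarAlgAut_apply, Matrix.star_eq_conjTranspose,
      Matrix.conjTranspose_eq_transpose_of_trivial] at this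
    exact this

theorem t_QT : S_QT := by
  intro d X hX m hm
  obtain ⟨U, l, hU1, hU2, hXU⟩ := qt_spec X hX
  have hpow : ∀ k : ℕ, X ^ k = U * Matrix.diagonal (fun i => l i ^ k) * Uᵀ := by
    intro k
    induction k with
    | zero => simp [hU1]
    | succ k ih =>
      rw [pow_succ, ih]
      rw [hXU]
      calc U * Matrix.diagonal (fun i => l i ^ k) * Uᵀ * (U * Matrix.diagonal l * Uᵀ)
          = U * Matrix.diagonal (fun i => l i ^ k) * (Uᵀ * U) * Matrix.diagonal l * Uᵀ := by
            simp only [Matrix.mul_assoc]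
        _ = U * (Matrix.diagonal (fun i => l i ^ k) * Matrix.diagonal l) * Uᵀ := by
            rw [hU2]; simp only [Matrix.mul_assoc, Matrix.one_mul]
        _ = _ := by
            rw [Matrix.diagonal_mul_diagonal]
            congr 3
            
  have htr : (X ^ (2 * m)).trace = ∑ i, l i ^ (2 * m) := by
    rw [hpow, Matrix.trace_mul_comm, ← Matrix.mul_assoc, hU2, Matrix.one_mul, Matrix.trace_diagonal]
  have hnn : ∀ i, 0 ≤ l i ^ (2 * m) := fun i => by
    rw [pow_mul]; positivity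
  refine ⟨by rw [htr]; exact Finset.sum_nonneg fun i _ => hnn i, fun x => ?_⟩
  set T := ((X ^ (2 * m)).trace) ^ (1 / (2 * m : ℝ)) with hT
  set y := x ᵥ* U with hy
  have hq : qf X x = ∑ k, l k * y k ^ 2 := by
    unfold qf
    rw [hXU, ← Matrix.mulVec_mulVec, ← Matrix.mulVec_mulVec, Matrix.dotProduct_mulVec,
      Matrix.mulVec_transpose]
    simp only [dotProduct, Matrix.mulVec_diagonal]
    refine Finset.sum_congr rfl fun k _ => ?_
    ring
  have hxx : x ⬝ᵥ x = ∑ k, y k ^ 2 := by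
    have h1 : x ⬝ᵥ (U *ᵥ (Uᵀ *ᵥ x)) = x ⬝ᵥ x := by
      rw [Matrix.mulVec_mulVec, hU1, Matrix.one_mulVec]
    rw [← h1, Matrix.dotProduct_mulVec, Matrix.mulVec_transpose]
    simp only [dotProduct]
    refine Finset.sum_congr rfl fun k _ => ?_
    ring
  have hl : ∀ k, |l k| ≤ T := by
    intro k
    have h1 : |l k| = (|l k| ^ (2 * m)) ^ (((2 * m : ℕ) : ℝ)⁻¹) :=
      (Real.pow_rpow_inv_natCast (abs_nonneg _) (by omega)).symm
    have h2 : (1 / (2 * m : ℝ)) = (((2 * m : ℕ) : ℝ)⁻¹) := by push_cast; rw [one_div]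
    rw [hT, h2, h1]
    refine Real.rpow_le_rpow (by positivity) ?_ (by positivity)
    rw [htr]
    have h3 : |l k| ^ (2 * m) = l k ^ (2 * m) := by
      rw [pow_mul, sq_abs, ← pow_mul]
    rw [h3]
    exact Finset.single_le_sum (f := fun i => l i ^ (2 * m)) (fun i _ => hnn i) (Finset.mem_univ k)
  rw [hq, hxx, Finset.mul_sum]
  refine (Finset.abs_sum_le_sum_abs _ _).trans (Finset.sum_le_sum fun k _ => ?_)
  rw [abs_mul, abs_of_nonneg (sq_nonneg (y k))]
  exact mul_le_mul_of_nonneg_right (hl k) (sq_nonneg _)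

end Pool.Agent.H999R5.Inj
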