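import Pool.Agent.H999R5.Inj.Defs

/-! RES: the final statement (helper844). -/

set_option autoImplicit false

namespace Pool.Agent.H999R5.Inj

open MeasureTheory ProbabilityTheory Finset
open scoped Matrix

theorem res_GX {d n : ℕ} (T : Fin n → (Fin 2 → Fin d) → ℝ) (g : Fin n → ℝ) :
    (Matrix.of fun a b => gs T g ![a, b] : Matrix (Fin d) (Fin d) ℝ) =
      GX (fun i => Matrix.of fun a b => T i ![a, b]) g := by
  ext a b
  unfold GX gs
  rw [Matrix.sum_apply]
  rfl

theorem t_RES (hF : S_FIN) (hB : S_BDD) (hC : S_CTS) (hR : S_BR) : S_RES := by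
  have part1 : ∀ p : ℝ, 2 < p → p ≤ 4 → ∀ d n : ℕ, 1 ≤ d → ∀ T : Fin n → (Fin 2 → Fin d) → ℝ,
    (∀ i, SymT (T i)) →
      Integrable (fun g => injNorm p (gs T g)) (gm n) ∧
      ∫ g, injNorm p (gs T g) ∂(gm n) ≤
        40 * Real.sqrt (Real.log (Real.exp 1 * d)) * (d : ℝ) ^ (1 / 2 - 1 / p) *
          Real.sqrt (∑ i, injNorm p (T i) ^ 2) := by
    intro p h2 h4 d n hd T hT
    have hp : 0 < p := by linarith
    obtain ⟨F, hF0, hFi, hFb, hFI⟩ := hF p h2 h4 n d hd
      (fun i => Matrix.of fun a b => T i ![a, b]) (fun i => injNorm p (T i))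
      (fun i => (hR d (T i)).2 (hT i)) (fun i => (hB d 2 p hp (T i)).2.2)
      (fun i x hx => by
        have := (hB d 2 p hp (T i)).1 x hx
        rwa [(hR d (T i)).1 x] at this)
    have hle : ∀ g, injNorm p (gs T g) ≤ F g := by
      intro g
      refine (hB d 2 p hp (gs T g)).2.1 (F g) fun x hx => ?_
      rw [(hR d (gs T g)).1 x, res_GX]
      exact hFb g x hx
    have hint : Integrable (fun g => injNorm p (gs T g)) (gm n) := by
      refine Integrable.mono' hFi (hC d 2 n p hp T).aestronglyMeasurable ?_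
      refine Filter.Eventually.of_forall fun g => ?_
      rw [Real.norm_of_nonneg (hB d 2 p hp (gs T g)).2.2]
      exact hle g
    exact ⟨hint, (integral_mono hint hFi hle).trans hFI⟩
  refine ⟨part1, fun p h2 h4 => ⟨40, 1 / 2, by norm_num, by norm_num, fun d n hd hn T hT => ?_⟩⟩
  obtain ⟨h1, h3⟩ := part1 p h2 h4 d n hd T hT
  refine ⟨h1, h3.trans ?_⟩
  have hd' : (1 : ℝ) ≤ d := by exact_mod_cast hd
  have hn' : (1 : ℝ) ≤ n := by exact_mod_cast hn
  have he : 0 < Real.exp 1 := Real.exp_pos 1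
  have h5 : Real.sqrt (Real.log (Real.exp 1 * d)) ≤
      Real.log (Real.exp 1 * d * n) ^ (1 / 2 : ℝ) := by
    rw [← Real.sqrt_eq_rpow]
    refine Real.sqrt_le_sqrt (Real.log_le_log (by positivity) ?_)
    exact le_mul_of_one_le_right (by positivity) hn'
  have h6 : 0 ≤ (d : ℝ) ^ (1 / 2 - 1 / p : ℝ) := Real.rpow_nonneg (by linarith) _
  have h7 : 0 ≤ Real.sqrt (∑ i, injNorm p (T i) ^ 2) := Real.sqrt_nonneg _
  exact mul_le_mul_of_nonneg_right (mul_le_mul_of_nonneg_right
    (mul_le_mul_of_nonneg_left h5 (by norm_num)) h6) h7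

end Pool.Agent.H999R5.Inj
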