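import Pool.Agent.H999R5.Inj.Defs

set_option autoImplicit false

namespace Pool.Agent.H999R5.Inj

open Finset
open scoped Matrix

/-- the quadratic form of the rescaled matrix -/
theorem sq_qf_scl {d : ℕ} (W : Fin d → ℝ) (M : Matrix (Fin d) (Fin d) ℝ) (x : Fin d → ℝ) :
    qf (scl W M) x = qf M (fun k => x k / Real.sqrt (W k)) := by
  unfold qf scl
  simp only [dotProduct, Matrix.mulVec, Matrix.of_apply]
  refine Finset.sum_congr rfl fun k _ => ?_
  rw [Finset.mul_sum, Finset.mul_sum]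
  refine Finset.sum_congr rfl fun l _ => ?_
  simp only [div_eq_mul_inv, mul_inv]
  ring

theorem sq_symm_dot {d : ℕ} (A : Matrix (Fin d) (Fin d) ℝ) (hA : A.IsSymm) (u v : Fin d → ℝ) :
    u ⬝ᵥ (A *ᵥ v) = v ⬝ᵥ (A *ᵥ u) := by
  rw [Matrix.dotProduct_mulVec, ← Matrix.mulVec_transpose, hA.eq, dotProduct_comm]

/-- polarisation -/
theorem sq_polar {d : ℕ} (A : Matrix (Fin d) (Fin d) ℝ) (hA : A.IsSymm) (u v : Fin d → ℝ) :
    4 * (v ⬝ᵥ (A *ᵥ u)) = qf A (u + v) - qf A (u - v) := by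
  unfold qf
  have h := sq_symm_dot A hA u v
  simp only [Matrix.mulVec_add, Matrix.mulVec_sub, add_dotProduct, dotProduct_add, sub_dotProduct,
    dotProduct_sub]
  rw [h]
  ring

theorem sq_key {d : ℕ} (A : Matrix (Fin d) (Fin d) ℝ) (hA : A.IsSymm) (D : Fin d → ℝ)
    (hD : ∀ x : Fin d → ℝ, |qf A x| ≤ ∑ k, D k * x k ^ 2) (x : Fin d → ℝ) (c : ℝ) (_hc : 0 < c) :
    2 * c * ((A *ᵥ x) ⬝ᵥ (A *ᵥ x)) ≤
      c ^ 2 * (∑ k, D k * x k ^ 2) + ∑ k, D k * (A *ᵥ x) k ^ 2 := by
  set y := A *ᵥ x with hy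
  have h1 := sq_polar A hA (c • x) y
  have h2 : y ⬝ᵥ (A *ᵥ (c • x)) = c * (y ⬝ᵥ y) := by
    rw [Matrix.mulVec_smul, dotProduct_smul, smul_eq_mul]
  rw [h2] at h1
  have h3 := hD (c • x + y)
  have h4 := hD (c • x - y)
  have h5 : (∑ k, D k * (c • x + y) k ^ 2) + (∑ k, D k * (c • x - y) k ^ 2) =
      2 * (c ^ 2 * (∑ k, D k * x k ^ 2) + ∑ k, D k * y k ^ 2) := by
    rw [Finset.mul_sum, ← Finset.sum_add_distrib, ← Finset.sum_add_distrib, Finset.mul_sum]
    refine Finset.sum_congr rfl fun k _ => ?_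
    simp only [Pi.add_apply, Pi.sub_apply, Pi.smul_apply, smul_eq_mul]
    ring
  have h6 := le_abs_self (qf A (c • x + y))
  have h7 := neg_abs_le (qf A (c • x - y))
  nlinarith [h1, h3, h4, h5, h6, h7]

theorem t_SQ : S_SQ := by
  intro n d M w α t ht hM hw hwα hq
  set W : Fin d → ℝ := fun k => t + (∑ j, α j * w j k) / t with hWdef
  have hαw : ∀ j k, 0 ≤ α j * w j k := fun j k =>
    mul_nonneg ((hw j k).trans (hwα j k)) (hw j k)
  have hWt : ∀ k, t ≤ W k := by
    intro k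
    have : 0 ≤ (∑ j, α j * w j k) / t :=
      div_nonneg (Finset.sum_nonneg fun j _ => hαw j k) ht.le
    simp only [hWdef]; linarith
  have hWpos : ∀ k, 0 < W k := fun k => lt_of_lt_of_le ht (hWt k)
  have hsym : ∀ i, (scl W (M i)).IsSymm := by
    intro i
    ext k l
    simp only [Matrix.transpose_apply, scl, Matrix.of_apply]
    have := (hM i).apply k l
    rw [this, mul_comm (Real.sqrt (W l))]
  refine ⟨hsym, ?_⟩
  -- domination of the rescaled matrices
  have hD : ∀ i (x : Fin d → ℝ), |qf (scl W (M i)) x| ≤ ∑ k, (w i k / W k) * x k ^ 2 := by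
    intro i x
    rw [sq_qf_scl]
    refine (hq i _).trans (le_of_eq ?_)
    refine Finset.sum_congr rfl fun k _ => ?_
    rw [div_pow, Real.sq_sqrt (hWpos k).le]
    ring
  have hsq : ∀ i (x : Fin d → ℝ), (scl W (M i) *ᵥ x) ⬝ᵥ (scl W (M i) *ᵥ x) ≤
      (α i / t) * ∑ k, (w i k / W k) * x k ^ 2 := by
    intro i x
    rcases lt_or_ge 0 (α i) with hα | hα
    · have hc : 0 < α i / t := div_pos hα ht
      have h := sq_key (scl W (M i)) (hsym i) (fun k => w i k / W k) (hD i) x (α i / t) hc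
      set y := scl W (M i) *ᵥ x with hy
      have h2 : ∑ k, (w i k / W k) * y k ^ 2 ≤ (α i / t) * (y ⬝ᵥ y) := by
        rw [dotProduct, Finset.mul_sum]
        refine Finset.sum_le_sum fun k _ => ?_
        have h3 : w i k / W k ≤ α i / t := by
          apply div_le_div₀ hα.le (hwα i k) ht (hWt k)
        nlinarith [mul_le_mul_of_nonneg_right h3 (sq_nonneg (y k))]
      have h4 : (α i / t) * (y ⬝ᵥ y) ≤ (α i / t) ^ 2 * ∑ k, (w i k / W k) * x k ^ 2 := by
        linarith
      have h5 : (α i / t) * (y ⬝ᵥ y) ≤ (α i / t) * ((α i / t) * ∑ k, (w i k / W k) * x k ^ 2) := by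
        calc _ ≤ _ := h4
          _ = _ := by ring
      exact le_of_mul_le_mul_left h5 hc
    · have hw0 : ∀ k, w i k = 0 := fun k => le_antisymm ((hwα i k).trans hα) (hw i k)
      have h := sq_key (scl W (M i)) (hsym i) (fun k => w i k / W k) (hD i) x 1 one_pos
      simp only [hw0, zero_div, zero_mul, Finset.sum_const_zero, mul_zero, add_zero] at h ⊢
      linarith
  have hdot : ∀ (A : Matrix (Fin d) (Fin d) ℝ), A.IsSymm → ∀ x : Fin d → ℝ,
      x ⬝ᵥ ((A * A) *ᵥ x) = (A *ᵥ x) ⬝ᵥ (A *ᵥ x) := by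
    intro A hA x
    rw [← Matrix.mulVec_mulVec, sq_symm_dot A hA x (A *ᵥ x)]
  rw [Matrix.posSemidef_iff_dotProduct_mulVec]
  constructor
  · -- hermitian
    have h : ∀ i, (scl W (M i) * scl W (M i)).IsSymm := by
      intro i
      rw [Matrix.IsSymm, Matrix.transpose_mul, (hsym i).eq]
    rw [Matrix.IsHermitian, Matrix.conjTranspose_eq_transpose_of_trivial, Matrix.transpose_sub,
      Matrix.transpose_one, Matrix.transpose_sum]
    congr 1
    exact Finset.sum_congr rfl fun i _ => (h i).eq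
  · intro x
    have hx : star x = x := by
      ext k; simp
    rw [hx, Matrix.sub_mulVec, Matrix.one_mulVec, dotProduct_sub, Matrix.sum_mulVec,
      dotProduct_sum]
    have h1 : ∑ i, x ⬝ᵥ ((scl W (M i) * scl W (M i)) *ᵥ x) ≤ x ⬝ᵥ x := by
      calc ∑ i, x ⬝ᵥ ((scl W (M i) * scl W (M i)) *ᵥ x)
          = ∑ i, (scl W (M i) *ᵥ x) ⬝ᵥ (scl W (M i) *ᵥ x) :=
            Finset.sum_congr rfl fun i _ => hdot _ (hsym i) x
        _ ≤ ∑ i, (α i / t) * ∑ k, (w i k / W k) * x k ^ 2 :=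
            Finset.sum_le_sum fun i _ => hsq i x
        _ = ∑ k, ((∑ i, α i * w i k) / t / W k) * x k ^ 2 := by
            simp only [Finset.mul_sum]
            rw [Finset.sum_comm]
            refine Finset.sum_congr rfl fun k _ => ?_
            rw [Finset.sum_div, Finset.sum_div, Finset.sum_mul]
            refine Finset.sum_congr rfl fun i _ => ?_
            ring
        _ ≤ ∑ k, x k * x k := by
            refine Finset.sum_le_sum fun k _ => ?_
            have h2 : (∑ i, α i * w i k) / t / W k ≤ 1 := by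
              rw [div_le_one (hWpos k)]
              simp only [hWdef]; linarith
            nlinarith [mul_le_mul_of_nonneg_right h2 (sq_nonneg (x k))]
        _ = x ⬝ᵥ x := rfl
    linarith

end Pool.Agent.H999R5.Inj
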