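import Pool.Agent.H999R5.Inj.Defs

/-!
# Task TWO: two-sided domination by a diagonal matrix
-/

set_option autoImplicit false

namespace Pool.Agent.H999R5.Inj

open MeasureTheory ProbabilityTheory Finset
open scoped Matrix

theorem TWO_neg {d : ℕ} (M : Matrix (Fin d) (Fin d) ℝ) (x : Fin d → ℝ) :
    qf (-M) x = -qf M x := by
  unfold qf
  rw [Matrix.neg_mulVec, dotProduct_neg]

theorem t_TWO (hD : S_DUAL) : S_TWO := by
  intro d p hp hp4 M N hM hN hb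
  obtain ⟨w₁, h10, h1s, h1b⟩ := hD d p hp hp4 M N hM hN hb
  obtain ⟨w₂, h20, h2s, h2b⟩ := hD d p hp hp4 (-M) N
    (by rw [Matrix.IsSymm, Matrix.transpose_neg, hM.eq]) hN
    (fun x hx => by rw [TWO_neg, abs_neg]; exact hb x hx)
  have hp2 : 0 < p - 2 := by linarith
  have hs1 : 1 ≤ p / (p - 2) := by
    rw [le_div_iff₀ hp2]; linarith
  have hs0 : 0 < p / (p - 2) := by linarith
  have hinv : (p - 2) / p = 1 / (p / (p - 2)) := by
    rw [one_div_div]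
  have h3 : Real.sqrt 3 ≤ 2 := by
    rw [show (2 : ℝ) = Real.sqrt 4 by
      rw [show (4 : ℝ) = 2 ^ 2 by norm_num, Real.sqrt_sq (by norm_num)]]
    exact Real.sqrt_le_sqrt (by norm_num)
  have hsum : (∑ k, (w₁ k + w₂ k) ^ (p / (p - 2))) ^ ((p - 2) / p) ≤ 4 * N := by
    have hm := Real.Lp_add_le_of_nonneg (univ : Finset (Fin d)) hs1
      (f := w₁) (g := w₂) (fun i _ => h10 i) (fun i _ => h20 i)
    rw [hinv] at h1s h2s ⊢
    calc (∑ k, (w₁ k + w₂ k) ^ (p / (p - 2))) ^ (1 / (p / (p - 2)))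
        ≤ (∑ k, w₁ k ^ (p / (p - 2))) ^ (1 / (p / (p - 2))) +
          (∑ k, w₂ k ^ (p / (p - 2))) ^ (1 / (p / (p - 2))) := hm
      _ ≤ Real.sqrt 3 * N + Real.sqrt 3 * N := add_le_add h1s h2s
      _ ≤ 4 * N := by nlinarith
  refine ⟨fun k => w₁ k + w₂ k, fun k => add_nonneg (h10 k) (h20 k), ?_, hsum, ?_⟩
  · intro k
    refine le_trans ?_ hsum
    have h0 : 0 ≤ w₁ k + w₂ k := add_nonneg (h10 k) (h20 k)
    have h1 : (w₁ k + w₂ k) ^ (p / (p - 2)) ≤ ∑ k, (w₁ k + w₂ k) ^ (p / (p - 2)) :=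
      Finset.single_le_sum (f := fun k => (w₁ k + w₂ k) ^ (p / (p - 2)))
        (fun i _ => Real.rpow_nonneg (add_nonneg (h10 i) (h20 i)) _) (mem_univ k)
    have h2 := Real.rpow_le_rpow (Real.rpow_nonneg h0 _) h1
      (by rw [hinv]; positivity : (0 : ℝ) ≤ (p - 2) / p)
    rwa [← Real.rpow_mul h0, hinv, mul_one_div_cancel hs0.ne', Real.rpow_one, ← hinv] at h2
  · intro x
    have e : ∑ k, (w₁ k + w₂ k) * x k ^ 2 = ∑ k, w₁ k * x k ^ 2 + ∑ k, w₂ k * x k ^ 2 := by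
      rw [← Finset.sum_add_distrib]
      exact Finset.sum_congr rfl fun k _ => by ring
    have n1 : 0 ≤ ∑ k, w₁ k * x k ^ 2 :=
      Finset.sum_nonneg fun k _ => mul_nonneg (h10 k) (sq_nonneg _)
    have n2 : 0 ≤ ∑ k, w₂ k * x k ^ 2 :=
      Finset.sum_nonneg fun k _ => mul_nonneg (h20 k) (sq_nonneg _)
    have b1 := h1b x
    have b2 := h2b x
    rw [TWO_neg] at b2
    show |qf M x| ≤ ∑ k, (w₁ k + w₂ k) * x k ^ 2
    rw [e, abs_le]
    constructor <;> linarith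

end Pool.Agent.H999R5.Inj
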