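import Pool.Agent.H999R5.Inj.T_GAU
import Pool.Agent.H999R5.Inj.T_IBP
import Pool.Agent.H999R5.Inj.T_HZ
import Pool.Agent.H999R5.Inj.T_TR
import Pool.Agent.H999R5.Inj.T_NCK
import Pool.Agent.H999R5.Inj.T_QT
import Pool.Agent.H999R5.Inj.T_OP
import Pool.Agent.H999R5.Inj.T_KH
import Pool.Agent.H999R5.Inj.T_RND
import Pool.Agent.H999R5.Inj.T_DUAL
import Pool.Agent.H999R5.Inj.T_TWO
import Pool.Agent.H999R5.Inj.T_SQ
import Pool.Agent.H999R5.Inj.T_FIN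
import Pool.Agent.H999R5.Inj.T_BDD
import Pool.Agent.H999R5.Inj.T_CTS
import Pool.Agent.H999R5.Inj.T_BR
import Pool.Agent.H999R5.Inj.T_RES

/-! Assembly of the matrix case. -/

set_option autoImplicit false

namespace Pool.Agent.H999R5.Inj

theorem asm_OP : S_OP := t_OP (t_NCK (t_IBP t_GAU) t_HZ t_TR) t_QT

theorem asm_TWO : S_TWO := t_TWO (t_DUAL (t_RND t_KH))

theorem asm_RES : S_RES :=
  t_RES (t_FIN asm_OP asm_TWO t_SQ) t_BDD (t_CTS t_BDD) t_BR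

end Pool.Agent.H999R5.Inj
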