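import Pool.Agent.H999R5.Inj.Defs

/-!
# GAU: Gaussian integration by parts for polynomials
-/

set_option autoImplicit false

namespace Pool.Agent.H999R5.Inj

open MeasureTheory ProbabilityTheory Finset

namespace GAUx

/-- the weight -/
noncomputable def ew (x : ℝ) : ℝ := Real.exp (-(1 / 2 : ℝ) * x ^ 2)

theorem int_ew (k : ℕ) : Integrable (fun x : ℝ => x ^ k * ew x) := by
  have h := integrable_rpow_mul_exp_neg_mul_sq (b := 1 / 2) (by norm_num) (s := (k : ℝ))
    (lt_of_lt_of_le (by norm_num) (Nat.cast_nonneg k))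
  refine h.congr (Filter.Eventually.of_forall fun x => ?_)
  simp only [Real.rpow_natCast, ew]

theorem gau_eq (f : ℝ → ℝ) :
    ∫ x, f x ∂(gaussianReal 0 1) = (Real.sqrt (2 * Real.pi))⁻¹ * ∫ x, f x * ew x := by
  rw [integral_gaussianReal_eq_integral_smul (by norm_num), ← integral_const_mul]
  refine integral_congr_ae (Filter.Eventually.of_forall fun x => ?_)
  simp only [gaussianPDFReal, ew, smul_eq_mul, sub_zero, NNReal.coe_one, mul_one]
  have : -x ^ 2 / 2 = -(1 / 2 : ℝ) * x ^ 2 := by ring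
  rw [this]
  ring

theorem int_pow (k : ℕ) : Integrable (fun x : ℝ => x ^ k) (gaussianReal 0 1) := by
  have h := (memLp_id_gaussianReal (μ := 0) (v := 1) (k : NNReal)).integrable_norm_pow'
  refine (integrable_norm_iff (by fun_prop)).1 ?_
  refine h.congr (Filter.Eventually.of_forall fun x => ?_)
  simp [norm_pow]

theorem rec_ew (k : ℕ) : ∫ x : ℝ, x ^ (k + 1) * ew x = k * ∫ x : ℝ, x ^ (k - 1) * ew x := by
  have hv : ∀ x : ℝ, HasDerivAt ew (-x * ew x) x := by
    intro x
    have h1 : HasDerivAt (fun y : ℝ => -(1 / 2 : ℝ) * y ^ 2) (-x) x := by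
      have := (hasDerivAt_pow 2 x).const_mul (-(1 / 2 : ℝ))
      refine this.congr_deriv ?_
      push_cast
      ring
    have h2 : HasDerivAt ew (Real.exp (-(1 / 2 : ℝ) * x ^ 2) * -x) x := h1.exp
    refine h2.congr_deriv ?_
    unfold ew
    ring
  have hu : ∀ x : ℝ, HasDerivAt (fun y : ℝ => y ^ k) (k * x ^ (k - 1)) x := fun x =>
    hasDerivAt_pow k x
  have i1 : Integrable ((fun y : ℝ => y ^ k) * fun x => -x * ew x) := by
    have := (int_ew (k + 1)).neg
    refine this.congr (Filter.Eventually.of_forall fun x => ?_)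
    simp only [Pi.neg_apply, Pi.mul_apply]
    ring
  have i2 : Integrable ((fun x : ℝ => (k : ℝ) * x ^ (k - 1)) * ew) := by
    have := (int_ew (k - 1)).const_mul (k : ℝ)
    refine this.congr (Filter.Eventually.of_forall fun x => ?_)
    simp only [Pi.mul_apply]
    ring
  have i3 : Integrable ((fun y : ℝ => y ^ k) * ew) := int_ew k
  have h := integral_mul_deriv_eq_deriv_mul_of_integrable (u := fun y : ℝ => y ^ k) (v := ew)
    (fun x _ => hu x) (fun x _ => hv x) i1 i2 i3
  have e1 : ∫ x : ℝ, x ^ k * (-x * ew x) = - ∫ x : ℝ, x ^ (k + 1) * ew x := by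
    rw [← integral_neg]
    refine integral_congr_ae (Filter.Eventually.of_forall fun x => ?_)
    simp only
    ring
  have e2 : ∫ x : ℝ, (k : ℝ) * x ^ (k - 1) * ew x = k * ∫ x : ℝ, x ^ (k - 1) * ew x := by
    rw [← integral_const_mul]
    refine integral_congr_ae (Filter.Eventually.of_forall fun x => ?_)
    simp only
    ring
  rw [e1, e2] at h
  linarith

/-- one-dimensional recursion -/
theorem rec_one (k : ℕ) : ∫ x, x ^ (k + 1) ∂(gaussianReal 0 1) =
    k * ∫ x, x ^ (k - 1) ∂(gaussianReal 0 1) := by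
  rw [gau_eq, gau_eq, rec_ew]
  ring

theorem int_mon {n : ℕ} (a : Fin n → ℕ) : Integrable (fun g : Fin n → ℝ => ∏ j, g j ^ a j) (gm n) :=
  Integrable.fintype_prod (f := fun j (x : ℝ) => x ^ a j) fun j => int_pow (a j)

theorem val_mon {n : ℕ} (a : Fin n → ℕ) : ∫ g : Fin n → ℝ, ∏ j, g j ^ a j ∂(gm n) =
    ∏ j, ∫ x, x ^ a j ∂(gaussianReal 0 1) :=
  integral_fintype_prod_eq_prod (fun j (x : ℝ) => x ^ a j)

theorem eval_mon {n : ℕ} (u : Fin n →₀ ℕ) (c : ℝ) (g : Fin n → ℝ) :
    MvPolynomial.eval g (MvPolynomial.monomial u c) = c * ∏ j, g j ^ u j := by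
  rw [MvPolynomial.eval_monomial, Finsupp.prod_fintype _ _ (fun i => by simp)]

theorem mon {n : ℕ} (u : Fin n →₀ ℕ) (i : Fin n) :
    ∫ g : Fin n → ℝ, g i * ∏ j, g j ^ u j ∂(gm n) =
      u i * ∫ g : Fin n → ℝ, ∏ j, g j ^ (u - Finsupp.single i 1 : Fin n →₀ ℕ) j ∂(gm n) := by
  have e1 : ∀ g : Fin n → ℝ, g i * ∏ j, g j ^ u j = ∏ j, g j ^ (u + Finsupp.single i 1 : Fin n →₀ ℕ) j := by
    intro g
    have : ∏ j, g j ^ (u + Finsupp.single i 1 : Fin n →₀ ℕ) j
        = (∏ j, g j ^ u j) * ∏ j, g j ^ (Finsupp.single i 1 : Fin n →₀ ℕ) j := by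
      rw [← Finset.prod_mul_distrib]
      refine Finset.prod_congr rfl fun j _ => ?_
      rw [Finsupp.add_apply, pow_add]
    have h2 : ∏ j, g j ^ (Finsupp.single i 1 : Fin n →₀ ℕ) j = g i := by
      rw [Finset.prod_eq_single i]
      · rw [Finsupp.single_eq_same, pow_one]
      · intro j _ hj
        rw [Finsupp.single_eq_of_ne (by exact hj), pow_zero]
      · intro h; exact absurd (Finset.mem_univ i) h
    rw [this, h2, mul_comm]
  simp_rw [e1]
  rw [val_mon, val_mon, ← Finset.mul_prod_erase _ _ (Finset.mem_univ i),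
    ← Finset.mul_prod_erase (s := Finset.univ)
      (f := fun j => ∫ x, x ^ (u - Finsupp.single i 1 : Fin n →₀ ℕ) j ∂(gaussianReal 0 1))
      (a := i) (Finset.mem_univ i), ← mul_assoc]
  congr 1
  · rw [Finsupp.add_apply, Finsupp.single_eq_same, rec_one, Finsupp.tsub_apply,
      Finsupp.single_eq_same]
  · refine Finset.prod_congr rfl fun j hj => ?_
    have hj' : j ≠ i := (Finset.mem_erase.1 hj).1
    rw [Finsupp.add_apply, Finsupp.tsub_apply, Finsupp.single_eq_of_ne (by exact hj'),
      add_zero, Nat.sub_zero]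

theorem int_poly {n : ℕ} (P : MvPolynomial (Fin n) ℝ) :
    Integrable (fun g => MvPolynomial.eval g P) (gm n) := by
  induction P using MvPolynomial.induction_on' with
  | monomial u c =>
    simp only [eval_mon]
    exact (int_mon _).const_mul c
  | add p q hp hq =>
    simp only [map_add]
    exact hp.add hq

theorem int_X_poly {n : ℕ} (P : MvPolynomial (Fin n) ℝ) (i : Fin n) :
    Integrable (fun g => g i * MvPolynomial.eval g P) (gm n) := by
  have h := int_poly (MvPolynomial.X i * P)
  refine h.congr (Filter.Eventually.of_forall fun g => ?_)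
  simp

end GAUx

open GAUx in
theorem t_GAU : S_GAU := by
  intro n P
  refine ⟨int_poly P, fun i => ?_⟩
  induction P using MvPolynomial.induction_on' with
  | monomial u c =>
    rw [MvPolynomial.pderiv_monomial]
    simp only [eval_mon]
    have e1 : ∀ g : Fin n → ℝ, g i * (c * ∏ j, g j ^ u j) = c * (g i * ∏ j, g j ^ u j) := by
      intro g; ring
    simp_rw [e1]
    rw [integral_const_mul, integral_const_mul, mon]
    ring
  | add p q hp hq =>
    simp only [map_add, mul_add]
    rw [integral_add (int_X_poly p i) (int_X_poly q i), hp, hq,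
      integral_add (int_poly _) (int_poly _)]

end Pool.Agent.H999R5.Inj
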